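import Pool.Agent.H97.HV.Targets
import Pool.Agent.H7.HD9.Z1

/-!
# MP_e37c09_lc: module NEM. No embeddings in the first case
-/

open Ordinal Cardinal Order Set
open scoped ZFSet
open _root_.HD HD.PRK HD.HV

universe u

namespace Pool.Agent.H49.HV

open Pool.Agent.H7.HD9.Z1 (al im sat_al sat_im up mem_up hod_up)

/-- for all `c` in `v 2` there are `p` in `v 0`, `a` in `p` and `v 1`, and `b` in `p` with `c` in
`b` -/
def fA : Fml := al (im (.mem 0 3) (.ex (.and (.mem 0 2) (.and (.ex (.and (.mem 0 1) (.mem 0 4)))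
  (.ex (.and (.mem 0 1) (.mem 2 0)))))))

theorem sat_fA (M : ZFSet.{u} → Prop) (v : ℕ → ZFSet.{u}) :
    Sat M fA v ↔ ∀ c, M c → c ∈ v 2 → ∃ p, M p ∧ p ∈ v 0 ∧ (∃ a, M a ∧ a ∈ p ∧ a ∈ v 1) ∧
      ∃ b, M b ∧ b ∈ p ∧ c ∈ b := by
  unfold fA
  rw [sat_al]
  refine forall_congr' fun c => imp_congr_right fun _ => ?_
  rw [sat_im]
  rfl

/-- for all `p` in `v 0` which contain `v 2`, all elements of `p` outside of `v 1` are equal to
`v 3` -/
def fB : Fml := al (im (.mem 0 1) (im (.mem 3 0) (al (im (.mem 0 1) (im (.neg (.mem 0 3))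
  (.eq 0 5))))))

theorem sat_fB (M : ZFSet.{u} → Prop) (v : ℕ → ZFSet.{u}) :
    Sat M fB v ↔ ∀ p, M p → p ∈ v 0 → v 2 ∈ p → ∀ b, M b → b ∈ p → b ∉ v 1 → b = v 3 := by
  unfold fB
  rw [sat_al]
  refine forall_congr' fun p => imp_congr_right fun _ => ?_
  rw [sat_im, sat_im, sat_al]
  refine imp_congr_right fun _ => imp_congr_right fun _ => forall_congr' fun b =>
    imp_congr_right fun _ => ?_
  rw [sat_im, sat_im]
  rfl

/-- an element of HOD is an element of HOD(V_ γ) -/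
theorem hod_nv (h0 : T_PVA.{u}) {γ : Ordinal.{u}} (hγ : 0 < γ) : ∀ x : ZFSet.{u}, HOD x → NV γ x := by
  intro x
  refine ZFSet.inductionOn x fun x ih hx => ?_
  obtain ⟨h1, h2⟩ := hod_iff.1 hx
  exact ZFSet.hereditarily_iff.2 ⟨h0.1 γ x hγ h1, fun y hy => ih y hy (h2 y hy)⟩

theorem wv_ord (h0 : T_PVA.{u}) {γ ξ a : Ordinal.{u}} (hγ : 0 < min γ ξ) (h : a ≤ ξ) :
    WV γ ξ a.toZFSet := by
  refine ⟨hod_nv h0 hγ _ (HOD.ordinal a), fun z hz => ?_⟩
  obtain ⟨b, hb, rfl⟩ := mem_toZFSet_iff.1 hz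
  rw [ZFSet.mem_vonNeumann, rank_toZFSet]
  exact hb.trans_le h

/-- the index of an element of a small set is small -/
theorem idx_small {D : Cardinal.{u}} {X : Set Ordinal.{u}} (hX : Few D.ord X)
    {a z : Ordinal.{u}} (h : nth X a z) : a < D.ord := by
  obtain ⟨τ, hτ, e, he⟩ := hX
  obtain ⟨-, g, hg1, hg2, -⟩ := h
  by_contra hcon
  have hcon := not_lt.1 hcon
  have h1 : ∀ x, ∃ i, x < a → i < τ ∧ e i = g x := by
    intro x
    by_cases hx : x < a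
    · obtain ⟨i, hi, h2⟩ := he (g x) (hg2 x hx).1
      exact ⟨i, fun _ => ⟨hi, h2⟩⟩
    · exact ⟨0, fun h => absurd h hx⟩
  choose k hk using h1
  have hinj : ∀ x < a, ∀ y < a, k x = k y → x = y := by
    intro x hx y hy hxy
    have h2 : g x = g y := by rw [← (hk x hx).2, ← (hk y hy).2, hxy]
    rcases lt_trichotomy x y with h3 | h3 | h3
    · exact absurd h2 (hg1 x y h3 hy).ne
    · exact h3
    · exact absurd h2 (hg1 y x h3 hx).ne'
  have hcard : #(Iio D.ord) ≤ #(Iio τ) := by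
    refine Cardinal.mk_le_of_injective (f := fun x : Iio D.ord =>
      (⟨k x.1, (hk x.1 (lt_of_lt_of_le x.2 hcon)).1⟩ : Iio τ)) ?_
    intro x y hxy
    exact Subtype.ext (hinj x.1 (lt_of_lt_of_le x.2 hcon) y.1 (lt_of_lt_of_le y.2 hcon)
      (congrArg Subtype.val hxy))
  rw [Cardinal.mk_Iio_ordinal, Cardinal.mk_Iio_ordinal, Cardinal.card_ord,
    Cardinal.lift_le] at hcard
  exact absurd hcard (not_le.2 (Cardinal.lt_ord.1 hτ))

/-- NEM. -/
theorem pf_NEM (h0 : T_PVA.{u}) (h1 : T_YA.{u}) : T_NEM.{u} := by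
  rintro δ hδ hA K hK hδK γ hγ ⟨ξ, hδξ, hξK, hξl, hcof, j, hj⟩
  obtain ⟨D, rfl⟩ : ∃ D : Cardinal.{u}, δ = D.ord := by
    obtain ⟨η, -, θ, i, hi⟩ := All.xa δ hδ 0
    obtain ⟨D, hD, -⟩ := All.xb δ η θ i hi
    exact ⟨D, hD⟩
  have hξ0 : 0 < min γ ξ := lt_min hγ.bot_lt hξl.bot_lt
  have hκ0 : 0 < min γ K.ord := lt_min hγ.bot_lt (hξl.bot_lt.trans hξK)
  have hel : ∀ (φ : Fml) (l : List ZFSet.{u}), (∀ x ∈ l, WV γ ξ x) →
      (Sat (WV γ ξ) φ (fun n => l.getD n ξ.toZFSet) ↔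
        Sat (WV γ K.ord) φ (fun n => (l.map j).getD n K.ord.toZFSet)) := by
    intro φ l hl
    have h2 := hj.elem φ (fun n => l.getD n ξ.toZFSet) (fun n => by
      rcases Nat.lt_or_ge n l.length with hn | hn
      · rw [List.getD_eq_getElem _ _ hn]
        exact hl _ (List.getElem_mem hn)
      · rw [List.getD_eq_default _ _ hn]
        exact wv_ord h0 hξ0 le_rfl)
    rw [h2]
    have h3 : (j ∘ fun n => l.getD n ξ.toZFSet) = fun n => (l.map j).getD n K.ord.toZFSet := by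
      funext n
      show j (l.getD n ξ.toZFSet) = _
      rw [← hj.crit]
      rcases Nat.lt_or_ge n l.length with hn | hn
      · rw [List.getD_eq_getElem _ _ hn, List.getD_eq_getElem _ _ (by simpa using hn)]
        simp
      · rw [List.getD_eq_default _ _ hn, List.getD_eq_default _ _ (by simpa using hn)]
    rw [h3]
  have hfix : ∀ a < ξ, j a.toZFSet = a.toZFSet := fun a ha =>
    hj.fix _ (hod_nv h0 hξ0 _ (HOD.ordinal a)) (by rw [ZFSet.mem_vonNeumann, rank_toZFSet]; exact ha)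
  obtain ⟨y, hyo, hys, ⟨τ, hτ, e, he⟩, hyc⟩ := h1 D.ord hδ hA ξ hξl hcof
  set X : Set Ordinal.{u} := {a | a.toZFSet ∈ y ∧ D.ord ≤ a} with hX
  have hXF : Few D.ord X := ⟨τ, hτ, e, fun x hx => he x hx.1⟩
  have hXD : DS X := by
    have h2 : DZ.{u} fun v => v 0 ∈ y := DZ.od (R := fun g v => v 0 ∈ g) hyo (DZ.mem 1 0)
    exact (h2.do.and (DO.gec 0 D.ord)).congr fun w => Iff.rfl
  have hXξ : ∀ a ∈ X, a < ξ := fun a ha => toZFSet_mem_toZFSet_iff.1 (hys ha.1)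
  have hR : DR fun a z => nth X a z :=
    All.db (fun a _ => a ∈ X) (hXD.congr fun _ => Iff.rfl)
  set f : ZFSet.{u} := rs D.ord ξ (fun a z => nth X a z) with hf
  set F : ZFSet.{u} := up f D.ord ξ with hF
  have hFm : ∀ p, p ∈ F ↔ ∃ a b : Ordinal.{u}, a < D.ord ∧ nth X a b ∧ p = {a.toZFSet, b.toZFSet} := by
    intro p
    rw [hF, mem_up]
    constructor
    · rintro ⟨a, b, ha, -, -, hab, he⟩
      exact ⟨a, b, ha, (pair_mem_rs.1 hab).2.2, he⟩
    · rintro ⟨a, b, ha, hab, he⟩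
      have hb : b < ξ := hXξ b hab.1
      exact ⟨a, b, ha, hab.1.2, hb, pair_mem_rs.2 ⟨ha, hb, hab⟩, he⟩
  have hpair : ∀ a < ξ, ∀ b < ξ, WV γ ξ {a.toZFSet, b.toZFSet} := by
    intro a ha b hb
    refine ⟨hod_nv h0 hξ0 _ ((HOD.ordinal a).upair (HOD.ordinal b)), fun z hz => ?_⟩
    rcases ZFSet.mem_pair.1 hz with rfl | rfl
    · rw [ZFSet.mem_vonNeumann, rank_toZFSet]; exact ha
    · rw [ZFSet.mem_vonNeumann, rank_toZFSet]; exact hb
  have hFV : WV γ ξ F := by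
    refine ⟨hod_nv h0 hξ0 _ (hod_up (hod_rs hR _ _) _ _), fun p hp => ?_⟩
    obtain ⟨a, b, ha, hab, rfl⟩ := (hFm p).1 hp
    have hb : b < ξ := hXξ b hab.1
    rw [ZFSet.mem_vonNeumann]
    refine lt_of_le_of_lt (b := b + 1) ?_ (hξl.add_one_lt hb)
    rw [ZFSet.rank_le_iff]
    intro z hz
    rcases ZFSet.mem_pair.1 hz with rfl | rfl
    · rw [rank_toZFSet]; exact (ha.trans_le hab.1.2).trans (_root_.lt_add_one b)
    · rw [rank_toZFSet]; exact _root_.lt_add_one b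
  have hδV : WV γ ξ D.ord.toZFSet := wv_ord h0 hξ0 hδξ.le
  have hnd : ∀ c, D.ord ≤ c → c.toZFSet ∉ D.ord.toZFSet :=
    fun c hc h => absurd (toZFSet_mem_toZFSet_iff.1 h) (not_lt.2 hc)
  -- the two transfers
  have hA' := (hel fA [F, D.ord.toZFSet] (by
      intro x hx
      rcases List.mem_cons.1 hx with rfl | hx
      · exact hFV
      · rw [List.mem_singleton.1 hx]; exact hδV)).1 (by
    rw [sat_fA]
    intro c _ hc0
    obtain ⟨c, hc, rfl⟩ := mem_toZFSet_iff.1 (show c ∈ ξ.toZFSet from hc0)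
    obtain ⟨b, hb, hcb, hby⟩ := hyc (max (c + 1) D.ord) (max_lt (hξl.add_one_lt hc) hδξ)
    have hbX : b ∈ X := ⟨hby, (le_max_right _ _).trans hcb⟩
    obtain ⟨a, -, hab⟩ := (All.vh X).1 b hbX
    have ha := idx_small hXF hab
    refine ⟨{a.toZFSet, b.toZFSet}, hpair a (ha.trans hδξ) b hb, (hFm _).2 ⟨a, b, ha, hab, rfl⟩,
      ⟨a.toZFSet, wv_ord h0 hξ0 (ha.trans hδξ).le, ZFSet.mem_pair.2 (Or.inl rfl),
        toZFSet_mem_toZFSet_iff.2 ha⟩, b.toZFSet, wv_ord h0 hξ0 hb.le,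
        ZFSet.mem_pair.2 (Or.inr rfl), toZFSet_mem_toZFSet_iff.2 ?_⟩
    exact lt_of_lt_of_le (_root_.lt_add_one c) ((le_max_left _ _).trans hcb))
  rw [sat_fA] at hA'
  obtain ⟨p, hp, hpF, ⟨a, -, hap, haδ⟩, b, hbV, hbp, hξb⟩ := hA' ξ.toZFSet
    (wv_ord h0 hκ0 hξK.le) (toZFSet_mem_toZFSet_iff.2 hξK)
  have haδ' : a ∈ D.ord.toZFSet := by
    rw [← hfix D.ord hδξ]
    exact haδ
  obtain ⟨a, ha, rfl⟩ := mem_toZFSet_iff.1 haδ'
  -- the value at `a`
  obtain ⟨b0, hb0, hb0u⟩ : ∃ b0 < ξ, ∀ b, nth X a b → b = b0 := by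
    by_cases hex : ∃ b, nth X a b
    · obtain ⟨b, hb⟩ := hex
      exact ⟨b, hXξ b hb.1, fun b' hb' => Pool.Agent.H20.HD.OT.nth_uniq All.vh hb' hb⟩
    · exact ⟨0, hξl.bot_lt, fun b hb => absurd ⟨b, hb⟩ hex⟩
  have hB' := (hel fB [F, D.ord.toZFSet, a.toZFSet, b0.toZFSet] (by
      intro x hx
      rcases List.mem_cons.1 hx with rfl | hx
      · exact hFV
      rcases List.mem_cons.1 hx with rfl | hx
      · exact hδV
      rcases List.mem_cons.1 hx with rfl | hx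
      · exact wv_ord h0 hξ0 (ha.trans hδξ).le
      · rw [List.mem_singleton.1 hx]; exact wv_ord h0 hξ0 hb0.le)).1 (by
    rw [sat_fB]
    intro q _ hq haq b _ hbq hbδ
    obtain ⟨a1, b1, ha1, hab1, rfl⟩ := (hFm q).1 hq
    have haq' : a.toZFSet = a1.toZFSet := by
      rcases ZFSet.mem_pair.1 (show a.toZFSet ∈ _ from haq) with h | h
      · exact h
      · have h5 := toZFSet_injective h
        rw [h5] at ha
        exact absurd ha (not_lt.2 hab1.1.2)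
    have hbq' : b = b1.toZFSet := by
      rcases ZFSet.mem_pair.1 hbq with h | h
      · exact absurd (show b ∈ D.ord.toZFSet by rw [h]; exact toZFSet_mem_toZFSet_iff.2 ha1) hbδ
      · exact h
    rw [← toZFSet_injective haq'] at hab1
    rw [hbq', hb0u b1 hab1]
    rfl)
  rw [sat_fB] at hB'
  have hbδ : b ∉ D.ord.toZFSet := by
    intro h
    obtain ⟨c, hc, rfl⟩ := mem_toZFSet_iff.1 h
    exact absurd ((toZFSet_mem_toZFSet_iff.1 hξb).trans hc) (not_lt.2 hδξ.le)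
  have hbe : b = j b0.toZFSet := hB' p hp hpF (by
    show j a.toZFSet ∈ p
    rw [hfix a (ha.trans hδξ)]
    exact hap) b hbV hbp (by
    show b ∉ j D.ord.toZFSet
    rw [hfix D.ord hδξ]
    exact hbδ)
  rw [hbe, hfix b0 hb0] at hξb
  exact absurd (toZFSet_mem_toZFSet_iff.1 hξb) (not_lt.2 hb0.le)

end Pool.Agent.H49.HV
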